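import Pool.Agent.R489.HB.Stm

/-!
# Piece SPLC of project HB: one side of a separating triangle
-/

set_option autoImplicit false

namespace Pool.Agent.R392.HB

open Finset Pool.Agent.R489.HB

variable {W : Type} [DecidableEq W]

theorem mem_fc {Φ : Finset (Finset W)} {e f : Finset W} : f ∈ fc Φ e ↔ f ∈ Φ ∧ e ⊆ f := by
  simp [fc]

theorem mem_edg {Φ : Finset (Finset W)} {e : Finset W} :
    e ∈ edg Φ ↔ ∃ f ∈ Φ, e ⊆ f ∧ e.card = 2 := by
  simp [edg, mem_powersetCard]

theorem fc_sdiff (X Ψ : Finset (Finset W)) (e : Finset W) : fc (X \ Ψ) e = fc X e \ fc Ψ e := by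
  ext f
  simp only [mem_fc, mem_sdiff]
  tauto

theorem fc_mono {X Ψ : Finset (Finset W)} (h : Ψ ⊆ X) (e : Finset W) : fc Ψ e ⊆ fc X e := by
  intro f hf
  rw [mem_fc] at hf ⊢
  exact ⟨h hf.1, hf.2⟩

theorem even_compl {X Ψ : Finset (Finset W)} (h : Ψ ⊆ X) (e : Finset W)
    (h2 : (fc X e).card = 2) (hΨ : Even (fc Ψ e).card) : Even (fc (X \ Ψ) e).card := by
  rw [fc_sdiff, card_sdiff_of_subset (fc_mono h e), h2]
  have hle : (fc Ψ e).card ≤ 2 := by rw [← h2]; exact card_le_card (fc_mono h e)
  exact (Nat.even_sub hle).2 (by simp [hΨ])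

theorem SPLC : S_SPLB → S_SPLC := by
  intro hB W _ Φ Φ1 Φ2 T' hΦ hT3 hTn hTe hS
  obtain ⟨-, -, hedg, -, -⟩ := hB W Φ Φ1 Φ2 T' hΦ hT3 hTn hTe hS
  have h1Φ : Φ1 ⊆ Φ := by rw [← hS.uni]; exact subset_union_left
  have h2Φ : Φ2 ⊆ Φ := by rw [← hS.uni]; exact subset_union_right
  have hT1 : T' ∉ Φ1 := fun h => hTn (h1Φ h)
  have he1 : ∀ e, e ∈ edg Φ1 → e ∈ edg Φ := by
    intro e he
    rw [mem_edg] at he ⊢
    obtain ⟨f, hf, h⟩ := he
    exact ⟨f, h1Φ hf, h⟩
  have hcard : ∀ e ∈ edg Φ, e.card = 2 := by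
    intro e he
    rw [mem_edg] at he
    obtain ⟨f, hf, h⟩ := he
    exact h.2
  -- edges of faces in `Φ1`
  have hin : ∀ f ∈ Φ1, ∀ e, e ⊆ f → e.card = 2 → e ∈ edg Φ1 := by
    intro f hf e hef hec
    rw [mem_edg]
    exact ⟨f, hf, hef, hec⟩
  -- the counts
  have htwo : ∀ e ∈ edg Φ1, (fc (insert T' Φ1) e).card = 2 := by
    intro e he
    have hec := hcard e (he1 e he)
    by_cases heT : e ⊆ T'
    · have h1 := hS.one1 e (mem_powersetCard.2 ⟨heT, hec⟩)
      have h2 : fc (insert T' Φ1) e = insert T' (fc Φ1 e) := by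
        ext f
        simp only [mem_fc, mem_insert]
        constructor
        · rintro ⟨h | h, h'⟩
          · exact Or.inl h
          · exact Or.inr ⟨h, h'⟩
        · rintro (h | h)
          · exact ⟨Or.inl h, h ▸ heT⟩
          · exact ⟨Or.inr h.1, h.2⟩
      rw [h2, card_insert_of_notMem (fun h => hT1 (mem_fc.1 h).1), h1]
    · have h2 : fc (insert T' Φ1) e = fc Φ1 e := by
        ext f
        simp only [mem_fc, mem_insert]
        constructor
        · rintro ⟨h | h, h'⟩
          · exact absurd (h ▸ h') heT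
          · exact ⟨h, h'⟩
        · rintro ⟨h, h'⟩
          exact ⟨Or.inr h, h'⟩
      have h3 : fc Φ2 e = ∅ := by
        rcases hS.side e (he1 e he) (fun h => heT (mem_powersetCard.1 h).1) with h | h
        · exfalso
          rw [mem_edg] at he
          obtain ⟨f, hf, h'⟩ := he
          have : f ∈ fc Φ1 e := mem_fc.2 ⟨hf, h'.1⟩
          rw [h] at this
          exact absurd this (notMem_empty _)
        · exact h
      have h4 : fc Φ e = fc Φ1 e := by
        ext f
        simp only [mem_fc]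
        constructor
        · rintro ⟨h, h'⟩
          rw [← hS.uni, mem_union] at h
          rcases h with h | h
          · exact ⟨h, h'⟩
          · have : f ∈ fc Φ2 e := mem_fc.2 ⟨h, h'⟩
            rw [h3] at this
            exact absurd this (notMem_empty _)
        · rintro ⟨h, h'⟩
          exact ⟨h1Φ h, h'⟩
      rw [h2, ← h4]
      exact hΦ.two e (he1 e he)
  -- evenness at all edges of `Φ`
  have hev : ∀ Ψ ⊆ Φ1, ∀ e ∈ edg Φ, (e ∈ edg Φ1 → Even (fc Ψ e).card) → Even (fc Ψ e).card := by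
    intro Ψ hΨ e he h
    by_cases he1 : e ∈ edg Φ1
    · exact h he1
    · have : fc Ψ e = ∅ := by
        rw [eq_empty_iff_forall_notMem]
        intro f hf
        rw [mem_fc] at hf
        exact he1 (hin f (hΨ hf.1) e hf.2 (hcard e he))
      rw [this]; simp
  refine ⟨insert_nonempty _ _, ?_, ?_, ?_, ?_⟩
  · intro f hf
    rw [mem_insert] at hf
    rcases hf with rfl | hf
    · exact hT3
    · exact hΦ.three f (h1Φ hf)
  · intro e he
    rw [hedg] at he
    exact htwo e he
  · -- links
    intro v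
    have key : ∀ Ψ ⊆ fc (insert T' Φ1) {v}, (∀ e ∈ edg Φ1, v ∈ e → Even (fc Ψ e).card) →
        T' ∉ Ψ → Ψ = ∅ ∨ Ψ = fc (insert T' Φ1) {v} := by
      intro Ψ hΨ hΨe hTΨ
      have hΨ1 : Ψ ⊆ Φ1 := by
        intro f hf
        have := (mem_fc.1 (hΨ hf)).1
        rw [mem_insert] at this
        rcases this with h | h
        · exact absurd (h ▸ hf) hTΨ
        · exact h
      have hΨv : Ψ ⊆ fc Φ {v} := by
        intro f hf
        exact mem_fc.2 ⟨h1Φ (hΨ1 hf), (mem_fc.1 (hΨ hf)).2⟩
      rcases hΦ.link v Ψ hΨv (fun e he hve => hev Ψ hΨ1 e he (fun h => hΨe e h hve)) with h | h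
      · exact Or.inl h
      · right
        by_cases hv : v ∈ T'
        · exfalso
          -- an edge of `T'` at `v`
          obtain ⟨e, he, hve⟩ : ∃ e ∈ T'.powersetCard 2, v ∈ e := by
            obtain ⟨w, hw⟩ : (T'.erase v).Nonempty := by
              rw [← card_pos, card_erase_of_mem hv, hT3]; norm_num
            rw [mem_erase] at hw
            refine ⟨{v, w}, mem_powersetCard.2 ⟨?_, card_pair hw.1.symm⟩, by simp⟩
            intro x hx
            rw [mem_insert, mem_singleton] at hx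
            rcases hx with rfl | rfl
            · exact hv
            · exact hw.2
          have h1 := hS.one2 e he
          obtain ⟨f, hf⟩ := card_eq_one.1 h1
          have hf' : f ∈ fc Φ2 e := by rw [hf]; simp
          rw [mem_fc] at hf'
          have hfΨ : f ∈ Ψ := by
            rw [h, mem_fc]
            exact ⟨h2Φ hf'.1, singleton_subset_iff.2 (hf'.2 hve)⟩
          exact (disjoint_left.1 hS.dis) (hΨ1 hfΨ) hf'.1
        · apply Subset.antisymm hΨ
          intro f hf
          rw [mem_fc, mem_insert] at hf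
          rw [h, mem_fc]
          refine ⟨?_, hf.2⟩
          rcases hf.1 with h' | h'
          · exact absurd (h' ▸ singleton_subset_iff.1 hf.2) hv
          · exact h1Φ h'
    intro Ψ hΨ hΨe
    rw [hedg] at hΨe
    by_cases hTΨ : T' ∈ Ψ
    · right
      have hc := key (fc (insert T' Φ1) {v} \ Ψ) sdiff_subset (by
        intro e he hve
        have hfe : fc (fc (insert T' Φ1) {v}) e = fc (insert T' Φ1) e := by
          ext f
          simp only [mem_fc]
          constructor
          · rintro ⟨⟨h, -⟩, h'⟩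
            exact ⟨h, h'⟩
          · rintro ⟨h, h'⟩
            exact ⟨⟨h, singleton_subset_iff.2 (h' hve)⟩, h'⟩
        apply even_compl hΨ e (by rw [hfe]; exact htwo e he) (hΨe e he hve))
        (by simp [hTΨ])
      rcases hc with hc | hc
      · exact Subset.antisymm hΨ (sdiff_eq_empty_iff_subset.1 hc)
      · exfalso
        have : T' ∈ fc (insert T' Φ1) {v} \ Ψ := by rw [hc]; exact hΨ hTΨ
        rw [mem_sdiff] at this
        exact this.2 hTΨ
    · exact key Ψ hΨ hΨe hTΨ
  · -- connectedness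
    have key : ∀ Ψ ⊆ insert T' Φ1, (∀ e ∈ edg Φ1, Even (fc Ψ e).card) →
        T' ∉ Ψ → Ψ = ∅ := by
      intro Ψ hΨ hΨe hTΨ
      have hΨ1 : Ψ ⊆ Φ1 := by
        intro f hf
        have := hΨ hf
        rw [mem_insert] at this
        rcases this with h | h
        · exact absurd (h ▸ hf) hTΨ
        · exact h
      rcases hΦ.conn Ψ (hΨ1.trans h1Φ) (fun e he => hev Ψ hΨ1 e he (hΨe e)) with h | h
      · exact h
      · exfalso
        obtain ⟨e, he⟩ : (T'.powersetCard 2).Nonempty := by
          rw [powersetCard_nonempty, hT3]; norm_num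
        have h1 := hS.one2 e he
        obtain ⟨f, hf⟩ := card_eq_one.1 h1
        have hf' : f ∈ fc Φ2 e := by rw [hf]; simp
        rw [mem_fc] at hf'
        have hfΨ : f ∈ Ψ := by rw [h]; exact h2Φ hf'.1
        exact (disjoint_left.1 hS.dis) (hΨ1 hfΨ) hf'.1
    intro Ψ hΨ hΨe
    rw [hedg] at hΨe
    by_cases hTΨ : T' ∈ Ψ
    · right
      have hc := key (insert T' Φ1 \ Ψ) sdiff_subset (by
        intro e he
        exact even_compl hΨ e (htwo e he) (hΨe e he)) (by simp [hTΨ])
      exact Subset.antisymm hΨ (sdiff_eq_empty_iff_subset.1 hc)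
    · exact Or.inl (key Ψ hΨ hΨe hTΨ)

end Pool.Agent.R392.HB
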